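import Pool.Agent.Results.MP_cda23d_nt.InvariantWindows
import Pool.Agent.V11001.KM.Near
import Pool.Agent.V11001.KM.Zero

/-!
# Uniformity for all elliptic curves with the height of the invariant near the powers of a real number

Let `ν n / log n → ∞`, for example `ν n = n` or `ν n = n !`. There is a set `E` of real numbers of Hausdorff dimension zero
such that for each `x > 1` outside `E` and all `θ < 1` there are `N` and `c > 0` such that for ALL rational numbers `j` but
finitely many with `|H(j) - x ^ (ν n)| ≤ x ^ (θ ν n)` for some `n`, ALL elliptic curves over `ℚ` with invariant `j` and ALL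
primes `p` with `N ≤ p ≤ exp (c √(log H(j)))` the order of the image of `Gal(ℚ̄/ℚ)` in `Aut(E[p])` is divisible by `p`. The
numbers `N` and `c` can be chosen independently of `x` and `θ` if sets `E` of small positive dimension are allowed.
-/

set_option autoImplicit false

open WeierstrassCurve

namespace Pool.Agent.Results.MP_cda23d_nt.InvariantsNearPowers

open Pool.Agent.V11001.KM
open InvariantWindows (invariant ht OrderDivisible Exc count)

/-- for all curves whose invariant has a large height near the numbers `β x ^ (ν n)` and all primes `p` with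
`N ≤ p ≤ exp (c √(log H))` the order of the image is divisible by `p` -/
def Law (N : ℕ) (c : ℝ) (ν : ℕ → ℝ) (θ β x : ℝ) : Prop :=
  ∃ H₀ : ℝ, ∀ A B : ℚ, 4 * A ^ 3 + 27 * B ^ 2 ≠ 0 → H₀ ≤ (ht (invariant A B) : ℝ) →
    Near ν θ β x (ht (invariant A B) : ℝ) →
      ∀ p : ℕ, p.Prime → N ≤ p → (p : ℝ) ≤ Real.exp (c * Real.sqrt (Real.log (ht (invariant A B) : ℝ))) →
        OrderDivisible A B p

lemma law_of {N : ℕ} {c : ℝ} {ν : ℕ → ℝ} {θ β x : ℝ}
    (h : ∃ H₀ : ℝ, ∀ j ∈ Exc N c, Near ν θ β x (ht j : ℝ) → (ht j : ℝ) < H₀) : Law N c ν θ β x := by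
  obtain ⟨H₀, hH⟩ := h
  refine ⟨H₀, fun A B hAB h1 h2 p hp hNp hpc => ?_⟩
  by_contra hcon
  exact absurd (hH (invariant A B) ⟨A, B, hAB, rfl, p, hp, hNp, hpc, hcon⟩ h2) (not_lt.2 h1)

/-- **Theorem.** Let `H(A, B)` be the height of the invariant of `y² = x³ + Ax + B`.
(1) For every `ε > 0` there are `N` and `c > 0` such that for all `ν` with `ν n / log n → ∞`, all countable sets `U` and all
`θ < 1` there is a set `E` of Hausdorff dimension at most `ε / (1 - θ)` such that for each `x > 1` outside `E` and each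
positive `β` in `U`, for ALL rational numbers `A, B` with `4A³ + 27B² ≠ 0` such that `H = H(A, B)` is sufficiently large
and `|H - β x ^ (ν n)| ≤ x ^ (θ ν n)` for some `n` and ALL primes `p` with `N ≤ p ≤ exp (c √(log H))` the order of the
image of the Galois group in `Aut(E[p])` is divisible by `p`.
(2) For all `ν` with `ν n / log n → ∞` and all countable sets `U` there is a set `E` of dimension zero such that for each
`x > 1` outside `E` and each `θ < 1` there are `N` and `c > 0` such that the same holds for each positive `β` in `U`. -/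
theorem result :
    (∀ ε : ℝ, 0 < ε → ∃ (N : ℕ) (c : ℝ), 0 < c ∧
      ∀ ν : ℕ → ℝ, Fast ν → ∀ U : Set ℝ, U.Countable → ∀ θ : ℝ, θ < 1 →
      ∃ E : Set ℝ, dimH E ≤ ENNReal.ofReal (ε / (1 - θ)) ∧
        ∀ x : ℝ, 1 < x → x ∉ E → ∀ β ∈ U, 0 < β → Law N c ν θ β x) ∧
    (∀ ν : ℕ → ℝ, Fast ν → ∀ U : Set ℝ, U.Countable →
      ∃ E : Set ℝ, dimH E = 0 ∧ ∀ x : ℝ, 1 < x → x ∉ E → ∀ θ : ℝ, θ < 1 →
        ∃ (N : ℕ) (c : ℝ), 0 < c ∧ ∀ β ∈ U, 0 < β → Law N c ν θ β x) := by
  refine ⟨fun ε hε => ?_, fun ν hν U hU => ?_⟩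
  · obtain ⟨N, c, hc, hcount⟩ := count ε hε
    refine ⟨N, c, hc, fun ν hν U hU θ hθ => ?_⟩
    obtain ⟨E, h1, h2⟩ := family_threshold (fun j : ℚ => (ht j : ℝ)) hν hε.le hθ U hU (J := Unit)
      (fun _ => Exc N c) (fun _ η hη => hcount η hη)
    exact ⟨E, h1, fun x hx hxE β hβ hβ0 => law_of (h2 x hx hxE β hβ hβ0 ())⟩
  · have hc : ∀ j : ℕ, _ := fun j => count (1 / (2 * ((j : ℝ) + 1))) (by positivity)
    choose N c hc0 hcount using hc
    obtain ⟨E, h1, h2⟩ := zero_family (Q := Unit) (J := Unit) (fun j : ℚ => (ht j : ℝ)) hν U hU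
      (fun _ j _ => Exc (N j) (c j)) (fun _ j _ => by
        obtain ⟨K, hK⟩ := hcount j (1 / (2 * ((j : ℝ) + 1))) (by positivity)
        refine ⟨K, fun X hX => ?_⟩
        have he : 1 / (2 * ((j : ℝ) + 1)) + 1 / (2 * ((j : ℝ) + 1)) = 1 / ((j : ℝ) + 1) := by
          field_simp
          norm_num
        rw [← he]
        exact hK X hX)
    refine ⟨E, h1, fun x hx hxE θ hθ => ?_⟩
    obtain ⟨j, hj⟩ := h2 x hx hxE θ hθ ()
    refine ⟨N j, c j, hc0 j, fun β hβ hβ0 => law_of ?_⟩
    obtain ⟨H₀, hH⟩ := bound_of_finite (fun j : ℚ => (ht j : ℝ)) (hj β hβ hβ0 ())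
    exact ⟨H₀, fun t ht' hn => hH t ⟨ht', hn⟩⟩

end Pool.Agent.Results.MP_cda23d_nt.InvariantsNearPowers
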