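import Pool.Agent.Results.MP_cda23d_nt.ExplicitWithoutSL
import Pool.Agent.V11149.Conv

/-!
# Serre's uniformity for all curves whose invariant is a good approximation to a real number outside a set of small dimension

For every `ε > 0` there is `c > 0` such that for all `N ≥ 5` and `κ > 0` and all real numbers `ξ` outside a set of Hausdorff
dimension at most `(5 / N + ε) / κ` the following holds for all but finitely many rational numbers `j` with
`|j - ξ| ≤ K (den j) ^ (-κ)` (whatever `K` is; for `κ = 2` and `K = 1` all the convergents of `ξ` are among them): for ALL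
elliptic curves `E` over `ℚ` with invariant `j` and ALL primes `p` with `N ≤ p ≤ exp (c √(log H(j)))` the image of the Galois
group in `Aut(E[p])` contains `SL₂(𝔽_p)`. Moreover there is ONE set `Z` of Hausdorff dimension zero such that for every real
number `ξ` outside `Z` and every `κ > 0` this is true for some `N` and `c > 0`.

Proof. The starting theorem `ExplicitWithoutSL` counts the exceptional invariants of height at most `X`: there are at most
`C X ^ (5 / N + ε)` of them. The neighbourhoods of radius `K (den j) ^ (-κ)` of these `j` are a cover of the limsup set by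
intervals with convergent sum of the `D`-th powers of the lengths for all `D > (5 / N + ε) / κ`.
-/

set_option autoImplicit false

open WeierstrassCurve MeasureTheory

namespace Pool.Agent.Results.MP_cda23d_nt.NearAlmostEveryPoint

/-- The curve `y² = x³ + Ax + B` over `ℚ`. -/
def curve (A B : ℚ) : WeierstrassCurve ℚ := ⟨0, 0, 0, A, B⟩

/-- Its `j`-invariant. -/
def invariant (A B : ℚ) : ℚ := 1728 * (4 * A ^ 3) / (4 * A ^ 3 + 27 * B ^ 2)

open scoped Classical in
/-- The group of its points over the algebraic closure of `ℚ`. -/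
abbrev Points (A B : ℚ) : Type := ((curve A B).baseChange (AlgebraicClosure ℚ)).toAffine.Point

open scoped Classical in
/-- The action of an automorphism `σ` of the algebraic closure on the points. -/
noncomputable def galois (A B : ℚ) (σ : AlgebraicClosure ℚ ≃ₐ[ℚ] AlgebraicClosure ℚ) :
    Points A B →+ Points A B :=
  WeierstrassCurve.Affine.Point.map (σ : AlgebraicClosure ℚ →ₐ[ℚ] AlgebraicClosure ℚ)

open scoped Classical in
/-- The points `P` and `Q` form a basis of the `p`-torsion. -/
def IsBasis (A B : ℚ) (p : ℕ) (P Q : Points A B) : Prop :=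
  p • P = 0 ∧ p • Q = 0 ∧
    (∀ R : Points A B, p • R = 0 → ∃ m n : ℤ, R = m • P + n • Q) ∧
    ∀ m n : ℤ, m • P + n • Q = 0 → (p : ℤ) ∣ m ∧ (p : ℤ) ∣ n

open scoped Classical in
/-- The image of the Galois group in the automorphism group of the `p`-torsion contains all automorphisms of determinant `1`:
there is a basis of the `p`-torsion in which every matrix of determinant `1` modulo `p` is the matrix of some `σ`. -/
def ContainsSL (A B : ℚ) (p : ℕ) : Prop :=
  ∃ P Q : Points A B, IsBasis A B p P Q ∧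
    ∀ a b c d : ℤ, (p : ℤ) ∣ a * d - b * c - 1 →
      ∃ σ : AlgebraicClosure ℚ ≃ₐ[ℚ] AlgebraicClosure ℚ,
        galois A B σ P = a • P + c • Q ∧ galois A B σ Q = b • P + d • Q

/-- The height `H(j) = max (|a|, b)` of the rational number `j = a / b` in lowest terms. -/
def height (j : ℚ) : ℝ := ((max j.num.natAbs j.den : ℕ) : ℝ)

/-- The rational number `j` is exceptional: it is the invariant of an elliptic curve over `ℚ` such that for some prime `p`
with `N ≤ p ≤ exp (c √(log H(j)))` the image of the Galois group does not contain all automorphisms of the `p`-torsion of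
determinant `1`. -/
def Exceptional (N : ℕ) (c : ℝ) (j : ℚ) : Prop :=
  ∃ A B : ℚ, 4 * A ^ 3 + 27 * B ^ 2 ≠ 0 ∧ invariant A B = j ∧
    ∃ p : ℕ, p.Prime ∧ N ≤ p ∧ (p : ℝ) ≤ Real.exp (c * Real.sqrt (Real.log (height j))) ∧ ¬ ContainsSL A B p

theorem count (ε : ℝ) (hε : 0 < ε) : ∃ C c : ℝ, 0 < c ∧ ∀ N : ℕ, 5 ≤ N → ∀ X : ℝ, 1 ≤ X →
    {j | j ∈ {j | Exceptional N c j} ∧ Pool.Agent.V11149.Conv.ht j ≤ X}.Finite ∧
      ({j | j ∈ {j | Exceptional N c j} ∧ Pool.Agent.V11149.Conv.ht j ≤ X}.ncard : ℝ) ≤ C * X ^ (5 / (N : ℝ) + ε) := by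
  obtain ⟨C, c, hc, h⟩ := ExplicitWithoutSL.result ε hε
  refine ⟨C, c, hc, fun N hN X hX => ?_⟩
  obtain ⟨hfin, hcard⟩ := (h N hN).1 X hX
  have hsub : {j | j ∈ {j | Exceptional N c j} ∧ Pool.Agent.V11149.Conv.ht j ≤ X} ⊆
      ExplicitWithoutSL.ExceptionalInvariants N c X := by
    rintro j ⟨⟨A, B, h1, h2, p, h3, h4, h5, h6⟩, hj⟩
    have hj' : height j ≤ X := hj
    have hn : (j.num.natAbs : ℝ) ≤ height j := by
      unfold height
      exact_mod_cast le_max_left j.num.natAbs j.den
    have hd : (j.den : ℝ) ≤ height j := by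
      unfold height
      exact_mod_cast le_max_right j.num.natAbs j.den
    have hd1 : (1 : ℝ) ≤ (j.den : ℝ) := by exact_mod_cast j.den_pos
    have ha : |(j.num : ℝ)| = (j.num.natAbs : ℝ) := by
      rw [← Int.cast_abs, Int.abs_eq_natAbs]
      simp
    refine ⟨?_, hd.trans hj', A, B, h1, h2, p, h3, h4, h5.trans ?_, h6⟩
    · rw [ha]
      exact hn.trans hj'
    · apply Real.exp_le_exp.2
      apply mul_le_mul_of_nonneg_left _ hc.le
      apply Real.sqrt_le_sqrt
      exact Real.log_le_log (by linarith) hj'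
  refine ⟨hfin.subset hsub, ?_⟩
  calc ({j | j ∈ {j | Exceptional N c j} ∧ Pool.Agent.V11149.Conv.ht j ≤ X}.ncard : ℝ)
      ≤ ((ExplicitWithoutSL.ExceptionalInvariants N c X).ncard : ℝ) := by
        exact_mod_cast Set.ncard_le_ncard hsub hfin
    _ ≤ C * X ^ (5 / (N : ℝ) + ε) := hcard

/-- (1) For every `ε > 0` there is `c > 0` such that for all `N ≥ 5` and `κ > 0` there is a set `E` of Hausdorff dimension at
most `(5 / N + ε) / κ` such that for all real `ξ` outside `E` and all `K` only finitely many rational numbers `j` with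
`|j - ξ| ≤ K (den j) ^ (-κ)` are exceptional for `N` and `c`.
(2) There is a set `Z` of Hausdorff dimension zero such that for every real `ξ` outside `Z` and every `κ > 0` there are `N`
and `c > 0` such that for all `K` only finitely many rational numbers `j` with `|j - ξ| ≤ K (den j) ^ (-κ)` are exceptional
for `N` and `c`. -/
theorem result :
    (∀ ε : ℝ, 0 < ε → ∃ c : ℝ, 0 < c ∧ ∀ N : ℕ, 5 ≤ N → ∀ κ : ℝ, 0 < κ →
      ∃ E : Set ℝ, dimH E ≤ ENNReal.ofReal ((5 / (N : ℝ) + ε) / κ) ∧ ∀ ξ : ℝ, ξ ∉ E → ∀ K : ℝ,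
        {j : ℚ | Exceptional N c j ∧ |(j : ℝ) - ξ| ≤ K * (j.den : ℝ) ^ (-κ)}.Finite) ∧
    (∃ Z : Set ℝ, dimH Z = 0 ∧ ∀ ξ : ℝ, ξ ∉ Z → ∀ κ : ℝ, 0 < κ → ∃ (N : ℕ) (c : ℝ), 0 < c ∧ ∀ K : ℝ,
        {j : ℚ | Exceptional N c j ∧ |(j : ℝ) - ξ| ≤ K * (j.den : ℝ) ^ (-κ)}.Finite) := by
  constructor
  · intro ε hε
    obtain ⟨C, c, hc, h⟩ := count ε hε
    refine ⟨c, hc, fun N hN κ hκ => ?_⟩
    have hN0 : (0 : ℝ) < N := by
      have : 0 < N := by omega
      exact_mod_cast this
    exact Pool.Agent.V11149.Conv.approx_rat {j | Exceptional N c j} (s := 5 / (N : ℝ) + ε) (by positivity) hκ (by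
      intro η hη
      refine ⟨|C|, fun X hX => ⟨(h N hN X hX).1, (h N hN X hX).2.trans ?_⟩⟩
      calc C * X ^ (5 / (N : ℝ) + ε) ≤ |C| * X ^ (5 / (N : ℝ) + ε) :=
            mul_le_mul_of_nonneg_right (le_abs_self C) (by positivity)
        _ ≤ |C| * X ^ (5 / (N : ℝ) + ε + η) := by
            apply mul_le_mul_of_nonneg_left _ (abs_nonneg C)
            exact Real.rpow_le_rpow_of_exponent_le hX (by linarith))
  · obtain ⟨Z, hZ, h⟩ := Pool.Agent.V11149.Conv.approx_zero
      (ι := {x : ℕ × ℝ // 0 < x.2}) (fun i => {j | Exceptional i.1.1 i.1.2 j}) (by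
        intro δ hδ
        obtain ⟨C, c, hc, h⟩ := count (δ / 2) (by linarith)
        obtain ⟨n, hn⟩ := exists_nat_gt (max 5 (10 / δ))
        have hn5 : (5 : ℝ) < n := lt_of_le_of_lt (le_max_left _ _) hn
        have hn5' : 5 ≤ n := by
          have : 5 < n := by exact_mod_cast hn5
          omega
        have hnδ : 10 / δ < n := lt_of_le_of_lt (le_max_right _ _) hn
        have hn0 : (0 : ℝ) < n := by linarith
        have h5 : 5 / (n : ℝ) + δ / 2 ≤ δ := by
          have h6 : 5 / (n : ℝ) ≤ δ / 2 := by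
            rw [div_le_div_iff₀ hn0 (by norm_num)]
            rw [div_lt_iff₀ hδ] at hnδ
            linarith
          linarith
        refine ⟨⟨(n, c), hc⟩, |C|, fun X hX => ⟨(h n hn5' X hX).1, (h n hn5' X hX).2.trans ?_⟩⟩
        calc C * X ^ (5 / (n : ℝ) + δ / 2) ≤ |C| * X ^ (5 / (n : ℝ) + δ / 2) :=
              mul_le_mul_of_nonneg_right (le_abs_self C) (by positivity)
          _ ≤ |C| * X ^ δ := by
              apply mul_le_mul_of_nonneg_left _ (abs_nonneg C)
              exact Real.rpow_le_rpow_of_exponent_le hX h5)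
    refine ⟨Z, hZ, fun ξ hξ κ hκ => ?_⟩
    obtain ⟨i, hi⟩ := h ξ hξ κ hκ
    exact ⟨i.1.1, i.1.2, i.2, hi⟩

end Pool.Agent.Results.MP_cda23d_nt.NearAlmostEveryPoint
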